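import Pool.Agent.H21.CV.Targets

/-!
# Board cvz_modules, row SPM (helper79): `w(s, t, T)` is monic
-/

set_option autoImplicit false

namespace Pool.Agent.H79.CVZ

open Finset MvPolynomial Pool.Agent.H31.RZ Pool.Agent.H21.CV

theorem sp_eq (w : MvPolynomial (Fin 3) ℤ) (s t : ℤ) :
    sp w s t = ∑ μ ∈ w.support,
      Polynomial.C (w.coeff μ * s ^ μ 0 * t ^ μ 1) * Polynomial.X ^ μ 2 := by
  unfold sp
  rw [aeval_def, eval₂_eq']
  refine sum_congr rfl fun μ _ => ?_
  rw [Fin.prod_univ_three]
  simp only [Matrix.cons_val_zero, Matrix.cons_val_one, Matrix.cons_val]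
  rw [Polynomial.C_mul, Polynomial.C_mul, Polynomial.C_pow, Polynomial.C_pow]
  have h1 : (algebraMap ℤ (Polynomial ℤ)) (w.coeff μ) = Polynomial.C (w.coeff μ) := rfl
  rw [h1]
  ring

theorem sp_coeff (w : MvPolynomial (Fin 3) ℤ) (s t : ℤ) (j : ℕ) :
    (sp w s t).coeff j = ∑ μ ∈ w.support,
      if j = μ 2 then w.coeff μ * s ^ μ 0 * t ^ μ 1 else 0 := by
  rw [sp_eq, Polynomial.finsetSum_coeff]
  refine sum_congr rfl fun μ _ => ?_
  rw [Polynomial.coeff_C_mul_X_pow]

theorem deg3 {w : MvPolynomial (Fin 3) ℤ} {e : ℕ} (hw : w.IsHomogeneous e)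
    {μ : Fin 3 →₀ ℕ} (hμ : μ ∈ w.support) : μ 0 + μ 1 + μ 2 = e := by
  have h1 : μ.degree = e := by
    by_contra h
    rw [mem_support_iff] at hμ
    exact hμ (hw.coeff_eq_zero h)
  rw [Finsupp.degree_eq_sum, Fin.sum_univ_three] at h1
  exact h1

theorem pf_SPM : T_SPM := by
  intro w e s t hw h1
  have hlt : ∀ j, e < j → (sp w s t).coeff j = 0 := by
    intro j hj
    rw [sp_coeff]
    refine sum_eq_zero fun μ hμ => ?_
    have := deg3 hw hμ
    rw [if_neg (by omega)]
  have he : (sp w s t).coeff e = 1 := by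
    rw [sp_coeff, sum_eq_single (Finsupp.single 2 e)]
    · have a0 : (Finsupp.single (2 : Fin 3) e) 0 = 0 := by simp
      have a1 : (Finsupp.single (2 : Fin 3) e) 1 = 0 := by simp
      have a2 : (Finsupp.single (2 : Fin 3) e) 2 = e := by simp
      rw [a0, a1, a2, if_pos rfl, h1]
      simp
    · intro μ hμ hne
      rw [if_neg]
      intro h
      apply hne
      have h3 := deg3 hw hμ
      ext i
      fin_cases i
      · show μ 0 = (Finsupp.single (2 : Fin 3) e) 0
        simp
        omega
      · show μ 1 = (Finsupp.single (2 : Fin 3) e) 1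
        simp
        omega
      · show μ 2 = (Finsupp.single (2 : Fin 3) e) 2
        simp
        omega
    · intro h
      rw [notMem_support_iff, h1] at h
      exact absurd h one_ne_zero
  have hdeg : (sp w s t).natDegree ≤ e := Polynomial.natDegree_le_iff_coeff_eq_zero.2 hlt
  refine ⟨Polynomial.monic_of_natDegree_le_of_coeff_eq_one e hdeg he,
    Polynomial.natDegree_eq_of_le_of_coeff_ne_zero hdeg (by rw [he]; exact one_ne_zero), ?_, ?_⟩
  · intro T
    rw [sp_eq, Polynomial.eval_finsetSum, eval_eq']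
    refine sum_congr rfl fun μ _ => ?_
    rw [Fin.prod_univ_three, Polynomial.eval_mul, Polynomial.eval_C, Polynomial.eval_pow,
      Polynomial.eval_X]
    simp only [Matrix.cons_val_zero, Matrix.cons_val_one, Matrix.cons_val]
    ring
  · intro B hB hs ht j
    rw [sp_coeff]
    have hcard : (w.support.card : ℤ) ≤ ((e : ℤ) + 1) ^ 3 := by
      have h2 : w.support.card ≤ (range (e + 1) ×ˢ (range (e + 1) ×ˢ range (e + 1))).card := by
        refine card_le_card_of_injOn (fun μ => (μ 0, μ 1, μ 2)) ?_ ?_
        · intro μ hμ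
          have := deg3 hw (mem_coe.1 hμ)
          rw [mem_coe, mem_product, mem_product, mem_range, mem_range, mem_range]
          refine ⟨?_, ?_, ?_⟩
          · show μ 0 < e + 1
            omega
          · show μ 1 < e + 1
            omega
          · show μ 2 < e + 1
            omega
        · intro μ _ ν _ h
          have h0 : μ 0 = ν 0 := congrArg (fun p => p.1) h
          have h1 : μ 1 = ν 1 := congrArg (fun p => p.2.1) h
          have h2 : μ 2 = ν 2 := congrArg (fun p => p.2.2) h
          ext i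
          fin_cases i
          · exact h0
          · exact h1
          · exact h2
      rw [card_product, card_product, card_range] at h2
      have h3 : ((w.support.card : ℕ) : ℤ) ≤ (((e + 1) * ((e + 1) * (e + 1)) : ℕ) : ℤ) := by
        exact_mod_cast h2
      refine h3.trans (le_of_eq ?_)
      push_cast
      ring
    calc |∑ μ ∈ w.support, if j = μ 2 then w.coeff μ * s ^ μ 0 * t ^ μ 1 else 0|
        ≤ ∑ μ ∈ w.support, |if j = μ 2 then w.coeff μ * s ^ μ 0 * t ^ μ 1 else 0| :=
          abs_sum_le_sum_abs _ _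
      _ ≤ ∑ μ ∈ w.support, (B : ℤ) := by
          refine sum_le_sum fun μ _ => ?_
          split_ifs
          · rw [abs_mul, abs_mul, abs_pow, abs_pow]
            have e1 : |s| ^ μ 0 ≤ 1 := pow_le_one₀ (abs_nonneg _) hs
            have e2 : |t| ^ μ 1 ≤ 1 := pow_le_one₀ (abs_nonneg _) ht
            have e3 : 0 ≤ |s| ^ μ 0 := pow_nonneg (abs_nonneg _) _
            have e4 : 0 ≤ |t| ^ μ 1 := pow_nonneg (abs_nonneg _) _
            have e5 := hB μ
            have e6 := abs_nonneg (w.coeff μ)
            calc |w.coeff μ| * |s| ^ μ 0 * |t| ^ μ 1 ≤ |w.coeff μ| * 1 * 1 := by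
                  refine mul_le_mul (mul_le_mul_of_nonneg_left e1 e6) e2 e4 (by linarith)
              _ ≤ B := by linarith
          · rw [abs_zero]
            exact Int.natCast_nonneg B
      _ = (w.support.card : ℤ) * B := by rw [sum_const, nsmul_eq_mul]
      _ ≤ ((e : ℤ) + 1) ^ 3 * B := mul_le_mul_of_nonneg_right hcard (Int.natCast_nonneg B)

end Pool.Agent.H79.CVZ
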